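import Pool.Agent.H3.EngelB

set_option autoImplicit false

namespace Pool.Agent.Results.MP_315210_al.LocInd

/-- A right-orderable k-Engel group is locally indicable. -/
theorem result :
    ∀ (k : ℕ) (G : Type) [Group G],
      (∀ x y : G, (fun z : G => z⁻¹ * y⁻¹ * z * y)^[k] x = 1) →
      (∃ r : G → G → Prop,
        (∀ a, ¬ r a a) ∧ (∀ a b c, r a b → r b c → r a c) ∧
        (∀ a b, a = b ∨ r a b ∨ r b a) ∧
        (∀ a b c, r a b → r (a * c) (b * c))) →
      ∀ H : Subgroup G, H.FG → H ≠ ⊥ →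
        ∃ φ : H →* Multiplicative ℤ, Function.Surjective φ := by
  rintro k G _ he ⟨r, h1, h2, h3, h4⟩ H a b
  exact Pool.Agent.H3.Engel.locind he r h1 h2 h3 h4 H a b

end Pool.Agent.Results.MP_315210_al.LocInd
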